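import Pool.Agent.Helper32.FR.Defs
import Pool.Agent.Helper33.HM.Basic
import Pool.Agent.Helper54.BA.CEcalc
import Pool.Agent.Helper82.BA.Coding

/-!
# Project FR, module E2: transfer of boundedness to an extension without new sets of numbers
-/

set_option autoImplicit false

namespace Pool.Agent.Helper32.FR

open Pool.Agent.Helper33.HM Pool.Agent.Helper94.BA

section E

variable {A B : Type 1} [CompleteBooleanAlgebra A] [CompleteBooleanAlgebra B] {e : A → B}

theorem h58_map_decV (he : CE e) (x : ℕ → A) (n k : ℕ) :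
    e (decV x n k) = decV (fun n => e (x n)) n k := by
  unfold decV
  rw [he.map_sup, he.map_iSup, he.map_iInf]
  simp only [he.map_iSup, he.map_compl]

theorem h58_map_lsV (he : CE e) (x y : ℕ → A) :
    e (lsV x y) = lsV (fun n => e (x n)) fun n => e (y n) := by
  unfold lsV
  rw [he.map_leStar]
  congr 1
  · funext n k
    exact h58_map_decV he x n k
  · funext n k
    exact h58_map_decV he y n k

theorem h58_names (hcc : CCC B) (hn : NoNew e) (g : ℕ → B) :
    ∃ (c : ℕ → B) (g' : ℕ → ℕ → A), ⨆ k, c k = ⊤ ∧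
      ∀ k n, c k ≤ iffV (g n) (e (g' k n)) := by
  classical
  obtain ⟨a, -, ha2, -, -, ha5⟩ := exists_partition hcc isSub_univ
    (fun c => ∃ g' : ℕ → A, ∀ n, c ≤ iffV (g n) (e (g' n))) (by
      intro b _ hb
      obtain ⟨c, h1, h2, g', h3⟩ := hn b hb g
      exact ⟨c, trivial, h2, h1, g', h3⟩)
    ⟨fun _ => ⊥, fun _ => bot_le⟩ (e := (⊤ : B)) trivial
  choose g' hg' using ha2
  exact ⟨a, g', ha5, hg'⟩

/-- FR-E2 -/
theorem bdg_map (he : CE e) (hcc : CCC B) (hn : NoNew e) (hb : Bdg A) : Bdg B := by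
  intro ι g
  choose c g' h1 h2 using fun i => h58_names hcc hn (g i)
  obtain ⟨G, hG⟩ := hb (ι × ℕ) fun i => g' i.1 i.2
  refine ⟨fun n => e (G n), fun i => ?_⟩
  rw [eq_top_iff, ← h1 i]
  refine iSup_le fun k => ?_
  have h3 : lsV (fun n => e (g' i k n)) (fun n => e (G n)) = ⊤ := by
    rw [← h58_map_lsV he, hG (i, k), he.map_top]
  have h4 : c i k ≤ eqV (fun n => e (g' i k n)) (g i) := by
    refine le_iInf fun n => ?_
    have := h2 i k n
    unfold iffV at this ⊢
    rwa [inf_comm]
  calc c i k ≤ eqV (fun n => e (g' i k n)) (g i) ⊓ lsV (fun n => e (g' i k n)) (fun n => e (G n)) :=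
        le_inf h4 (by rw [h3]; exact le_top)
    _ ≤ lsV (g i) (fun n => e (G n)) := leStar_decV_ext _ _ _

end E

end Pool.Agent.Helper32.FR
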